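import Mathlib

/-!
# Every `S₁(Γ₁, Γ)`-space of reals is perfectly meager

We follow the definitions of the problem file literally.

Idea of the proof.  Let `P` be perfect.  Enumerate a countable base of `P` so that each base set
occurs infinitely often.  Inside the `n`-th base set pick a sequence `G n m` (`m ∈ ω`) of pairwise
disjoint closed sets with nonempty interior in `P`.  The complements in `X` form a
`Γ₁`-sequence, so some `d` gives a `γ`-sequence.  But `⋃ n ≥ k, interior (G n (d n))` is dense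
open in `P` for every `k`, so the set of points of `P` that lie in only finitely many
`G n (d n)` is meager in `P`.
-/

namespace Pool.Agent.Results.MP_9df12e_lc.PerfectlyMeager

open Set Filter Topology

/-- `V` is a `Γ_h`-sequence for the space `Y`: a double sequence of open subsets of `Y` such
that for all `x` and `n`, the point `x` is missing from at most `h n` of the sets `V n m`. -/
def IsGammaHSeq {Y : Type*} [TopologicalSpace Y] (h : ℕ → ℕ) (V : ℕ → ℕ → Set Y) : Prop :=
  (∀ n m, IsOpen (V n m)) ∧ ∀ (x : Y) (n : ℕ), {m : ℕ | x ∉ V n m}.encard ≤ h n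

/-- `U` is a `γ`-sequence for the space `Y`: a sequence of open subsets of `Y` such that each
point lies in `U n` for all but finitely many `n`. -/
def IsGammaSeq {Y : Type*} [TopologicalSpace Y] (U : ℕ → Set Y) : Prop :=
  (∀ n, IsOpen (U n)) ∧ ∀ x, ∀ᶠ n in atTop, x ∈ U n

/-- The subspace `X` of the reals is an `S₁(Γ_h, Γ)`-space: for every `Γ_h`-sequence `V` there
is `d` such that `n ↦ V n (d n)` is a `γ`-sequence. -/
def IsS1GammaHGamma (h : ℕ → ℕ) (X : Set ℝ) : Prop :=
  ∀ V : ℕ → ℕ → Set X, IsGammaHSeq h V → ∃ d : ℕ → ℕ, IsGammaSeq (fun n => V n (d n))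

/-- `X` is perfectly meager: for every perfect set `P` (nonempty closed set of reals without
isolated points) the trace of `X` on `P` is meager in the subspace `P`. -/
def IsPerfectlyMeager (X : Set ℝ) : Prop :=
  ∀ P : Set ℝ, P.Nonempty → IsClosed P → Preperfect P →
    IsMeagre ((Subtype.val : P → ℝ) ⁻¹' X)

/-- In a regular Hausdorff space without isolated points every nonempty open set contains a
sequence of pairwise disjoint closed sets with nonempty interior. -/
theorem exists_disjoint_closed {Z : Type*} [TopologicalSpace Z] [T3Space Z]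
    [∀ x : Z, NeBot (𝓝[≠] x)] (U : Set Z) (hU : IsOpen U) (hne : U.Nonempty) :
    ∃ G : ℕ → Set Z, (∀ m, IsClosed (G m)) ∧ (∀ m, (interior (G m)).Nonempty) ∧
      (∀ m, G m ⊆ U) ∧ Pairwise (Function.onFun Disjoint G) := by
  obtain ⟨x, hx⟩ := hne
  have hinf : U.Infinite := infinite_of_mem_nhds x (hU.mem_nhds hx)
  have : Infinite U := hinf.to_subtype
  obtain ⟨W, hWi, hWo, hWd⟩ := exists_seq_infinite_isOpen_pairwise_disjoint U
  have key : ∀ m, ∃ G : Set Z, IsClosed G ∧ (interior G).Nonempty ∧
      G ⊆ (Subtype.val : U → Z) '' (W m) := by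
    intro m
    obtain ⟨y, hy⟩ := (hWi m).nonempty
    have hopen : IsOpen ((Subtype.val : U → Z) '' (W m)) :=
      hU.isOpenMap_subtype_val _ (hWo m)
    have hmem : ((Subtype.val : U → Z) '' (W m)) ∈ 𝓝 (y : Z) :=
      hopen.mem_nhds ⟨y, hy, rfl⟩
    obtain ⟨G, hG, hGc, hGs⟩ := exists_mem_nhds_isClosed_subset hmem
    exact ⟨G, hGc, ⟨y, mem_interior_iff_mem_nhds.2 hG⟩, hGs⟩
  choose G hGc hGi hGs using key
  refine ⟨G, hGc, hGi, fun m => (hGs m).trans ?_, ?_⟩
  · rintro _ ⟨y, -, rfl⟩
    exact y.2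
  · intro i j hij
    refine Disjoint.mono (hGs i) (hGs j) ?_
    exact (disjoint_image_iff Subtype.val_injective).2 (hWd hij)

/-- **Q1.** Every `S₁(Γ₁, Γ)`-space of reals is perfectly meager. -/
theorem result (X : Set ℝ) (hX : IsS1GammaHGamma (fun _ => 1) X) : IsPerfectlyMeager X := by
  intro P hPne hPc hPp
  -- `P` has no isolated points
  have hnb : ∀ x : P, NeBot (𝓝[≠] x) := by
    intro x
    rw [← mem_closure_iff_nhdsWithin_neBot, mem_closure_iff_nhds]
    intro t ht
    obtain ⟨s, hs, hst⟩ := mem_nhds_subtype _ _ _ |>.1 ht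
    obtain ⟨y, ⟨hys, hyP⟩, hyx⟩ := preperfect_iff_nhds.1 hPp x x.2 s hs
    exact ⟨⟨y, hyP⟩, hst hys, fun h => hyx (congrArg Subtype.val h)⟩
  have : Nonempty P := hPne.to_subtype
  -- a countable base, as a sequence of nonempty open sets
  obtain ⟨B, hBc, hBe, hBb⟩ := TopologicalSpace.exists_countable_basis P
  have hBne : B.Nonempty := by
    obtain ⟨x⟩ := ‹Nonempty P›
    obtain ⟨s, hs, -⟩ := hBb.exists_subset_of_mem_open (mem_univ x) isOpen_univ
    exact ⟨s, hs⟩
  obtain ⟨b, hb⟩ := hBc.exists_eq_range hBne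
  -- the `n`-th set is `b (unpair n).1`, so that each base set occurs infinitely often
  have hbo : ∀ i, IsOpen (b i) := fun i => hBb.isOpen (hb ▸ mem_range_self i)
  have hbne : ∀ i, (b i).Nonempty := by
    intro i
    rw [nonempty_iff_ne_empty]
    intro h
    exact hBe (h ▸ hb ▸ mem_range_self i)
  have key := fun n : ℕ => exists_disjoint_closed (b n.unpair.1) (hbo _) (hbne _)
  choose G hGc hGi hGs hGd using key
  -- the `Γ₁`-sequence
  let F : ℕ → ℕ → Set ℝ := fun n m => (Subtype.val : P → ℝ) '' (G n m)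
  have hFc : ∀ n m, IsClosed (F n m) := fun n m =>
    hPc.isClosedEmbedding_subtypeVal.isClosedMap _ (hGc n m)
  let V : ℕ → ℕ → Set X := fun n m => (Subtype.val : X → ℝ) ⁻¹' (F n m)ᶜ
  have hV : IsGammaHSeq (fun _ => 1) V := by
    refine ⟨fun n m => (hFc n m).isOpen_compl.preimage continuous_subtype_val, ?_⟩
    intro x n
    have : {m : ℕ | x ∉ V n m}.Subsingleton := by
      intro i hi j hj
      by_contra hij
      have hi' : (x : ℝ) ∈ F n i := by simpa [V] using hi
      have hj' : (x : ℝ) ∈ F n j := by simpa [V] using hj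
      have hd : Disjoint (F n i) (F n j) :=
        (disjoint_image_iff Subtype.val_injective).2 (hGd n hij)
      exact (disjoint_left.1 hd) hi' hj'
    simpa using encard_le_one_iff_subsingleton.2 this
  obtain ⟨d, -, hd⟩ := hX V hV
  -- the dense open sets
  let O : ℕ → Set P := fun k => ⋃ n ≥ k, interior (G n (d n))
  have hOo : ∀ k, IsOpen (O k) := fun k =>
    isOpen_biUnion fun n _ => isOpen_interior
  have hOd : ∀ k, Dense (O k) := by
    intro k
    rw [dense_iff_inter_open]
    intro U hU hUne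
    obtain ⟨x, hx⟩ := hUne
    obtain ⟨s, hsB, -, hsU⟩ := hBb.exists_subset_of_mem_open hx hU
    rw [hb] at hsB
    obtain ⟨i, rfl⟩ := hsB
    have hk : k ≤ Nat.pair i k := Nat.right_le_pair i k
    obtain ⟨y, hy⟩ := hGi (Nat.pair i k) (d (Nat.pair i k))
    refine ⟨y, hsU ?_, ?_⟩
    · have := hGs (Nat.pair i k) (d (Nat.pair i k)) (interior_subset hy)
      simpa using this
    · exact mem_biUnion (x := Nat.pair i k) hk hy
  -- conclusion
  rw [IsMeagre]
  have hres : (⋂ k, O k) ∈ residual P :=
    countable_iInter_mem.2 fun k => residual_of_dense_open (hOo k) (hOd k)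
  refine mem_of_superset hres ?_
  intro p hp hpX
  obtain ⟨k, hk⟩ := eventually_atTop.1 (hd ⟨p, hpX⟩)
  have hpk := mem_iInter.1 hp k
  simp only [O, mem_iUnion] at hpk
  obtain ⟨n, hn, hpn⟩ := hpk
  have h1 := hk n hn
  exact h1 ⟨p, interior_subset hpn, rfl⟩

end Pool.Agent.Results.MP_9df12e_lc.PerfectlyMeager
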